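import Pool.Agent.SSPG.Good

/-!
# Countably compact groups and selectively pseudocompact subgroups: basics
-/

open Filter Topology Set

set_option linter.unusedSectionVars false

namespace CCG

/-- countable compactness: every countable open cover has a finite subcover -/
def CountablyCompact (X : Type*) [TopologicalSpace X] : Prop :=
  ∀ U : ℕ → Set X, (∀ n, IsOpen (U n)) → (∀ x, ∃ n, x ∈ U n) → ∃ s : Finset ℕ, ∀ x, ∃ n ∈ s, x ∈ U n

/-- selectively pseudocompact spaces -/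
def SPC (X : Type*) [TopologicalSpace X] : Prop :=
  ∀ U : ℕ → Set X, (∀ n, IsOpen (U n)) → (∀ n, (U n).Nonempty) →
    ∃ (x : ℕ → X) (a : X), (∀ n, x n ∈ U n) ∧
      ∀ W : Set X, IsOpen W → a ∈ W → {n | x n ∈ W}.Infinite

/-- every sequence has an accumulation point -/
theorem CountablyCompact.seq {X : Type*} [TopologicalSpace X] (h : CountablyCompact X)
    (x : ℕ → X) : ∃ a : X, ∀ W : Set X, IsOpen W → a ∈ W → {n | x n ∈ W}.Infinite := by
  by_contra hcon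
  push Not at hcon
  have hcov : ∀ a : X, ∃ N, a ∈ (closure {y | ∃ m, N ≤ m ∧ y = x m})ᶜ := by
    intro a
    obtain ⟨W, hW, haW, hfin⟩ := hcon a
    have hfin' : {n | x n ∈ W}.Finite := by
      by_contra h'
      exact h' hfin
    obtain ⟨N, hN⟩ := hfin'.bddAbove
    refine ⟨N + 1, ?_⟩
    rw [mem_compl_iff, mem_closure_iff]
    intro h'
    obtain ⟨y, hy1, m, hm, rfl⟩ := h' W hW haW
    have := hN (show m ∈ {n | x n ∈ W} from hy1)
    omega
  obtain ⟨s, hs⟩ := h (fun N => (closure {y | ∃ m, N ≤ m ∧ y = x m})ᶜ)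
    (fun N => isClosed_closure.isOpen_compl) hcov
  obtain ⟨N, hN⟩ := s.bddAbove
  obtain ⟨n, hn, hx⟩ := hs (x N)
  exact hx (subset_closure ⟨N, hN hn, rfl⟩)

theorem SPC.of {X : Type*} [TopologicalSpace X]
    (h : ∀ U : ℕ → Set X, (∀ n, IsOpen (U n)) → (∀ n, (U n).Nonempty) →
    ∃ φ : ℕ → ℕ, StrictMono φ ∧ ∃ (y : ℕ → X) (a : X), (∀ k, y k ∈ U (φ k)) ∧
      ∀ W : Set X, IsOpen W → a ∈ W → {k | y k ∈ W}.Infinite) : SPC X := by
  classical
  intro U ho hne
  obtain ⟨φ, hφ, y, a, hy, ha⟩ := h U ho hne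
  have hx : ∀ n, ∃ x : X, x ∈ U n ∧ ∀ k, φ k = n → x = y k := by
    intro n
    by_cases hn : ∃ k, φ k = n
    · obtain ⟨k, rfl⟩ := hn
      refine ⟨y k, hy k, fun k' hk' => ?_⟩
      rw [hφ.injective hk']
    · obtain ⟨x, hx⟩ := hne n
      exact ⟨x, hx, fun k hk => absurd ⟨k, hk⟩ hn⟩
  choose x hx hx' using hx
  refine ⟨x, a, hx, fun W hW haW => ?_⟩
  have h1 := (ha W hW haW).image hφ.injective.injOn
  refine h1.mono ?_
  rintro _ ⟨k, hk, rfl⟩
  show x (φ k) ∈ W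
  rw [hx' (φ k) k rfl]
  exact hk

section

variable {G : Type*} [AddCommGroup G] [TopologicalSpace G]

/-- accumulation points of sequences, in terms of neighbourhoods of zero -/
def Acc (x : ℕ → G) (a : G) : Prop := ∀ V ∈ 𝓝 (0 : G), {n | x n - a ∈ V}.Infinite

/-- every sequence of the group has an accumulation point -/
def CC (G : Type*) [AddCommGroup G] [TopologicalSpace G] : Prop :=
  ∀ x : ℕ → G, ∃ a : G, Acc x a

variable [IsTopologicalAddGroup G]

theorem CountablyCompact.cc (h : CountablyCompact G) : CC G := by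
  intro x
  obtain ⟨a, ha⟩ := h.seq x
  refine ⟨a, fun V hV => ?_⟩
  obtain ⟨O, hOV, hO, h0⟩ := mem_nhds_iff.1 hV
  refine (ha {y | y - a ∈ O} (hO.preimage (by fun_prop)) (by simpa using h0)).mono ?_
  intro n hn
  exact hOV hn

open SSPG

theorem Acc.frequently {x : ℕ → G} {a : G} (h : Acc x a) {V : Set G} (hV : V ∈ 𝓝 (0 : G)) (n0 : ℕ) :
    ∃ n, n0 ≤ n ∧ x n - a ∈ V := by
  by_contra hcon
  push Not at hcon
  refine h V hV ((finite_Iio n0).subset ?_)
  intro n hn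
  by_contra h'
  exact hcon n (not_lt.1 h') hn

theorem Acc.open_mem {x : ℕ → G} {a : G} (h : Acc x a) {W : Set G} (hW : IsOpen W) (ha : a ∈ W) :
    {n | x n ∈ W}.Infinite := by
  refine (h {v | a + v ∈ W} (nhds_of_open hW ha)).mono ?_
  intro n hn
  have h1 : a + (x n - a) ∈ W := hn
  simpa using h1

theorem Acc.comp {x : ℕ → G} {a : G} {φ : ℕ → ℕ} (hφ : Function.Injective φ)
    (h : Acc (x ∘ φ) a) : Acc x a := by
  intro V hV
  refine ((h V hV).image hφ.injOn).mono ?_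
  rintro _ ⟨k, hk, rfl⟩
  exact hk

theorem Acc.mem_closed {x : ℕ → G} {a : G} (h : Acc x a) {K : Set G} (hK : IsClosed K) (n0 : ℕ)
    (hx : ∀ n, n0 ≤ n → x n ∈ K) : a ∈ K := by
  rw [← hK.closure_eq, mem_closure_iff]
  intro O hO haO
  obtain ⟨n, hn, hn'⟩ := h.frequently (nhds_of_open hO haO) n0
  refine ⟨x n, ?_, hx n hn⟩
  have h1 : a + (x n - a) ∈ O := hn'
  simpa using h1

theorem Acc.sub_mem_PO {x : ℕ → G} {a c : G} (h : Acc x a) {N : AddSubgroup G} (hN : PO N) (n0 : ℕ)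
    (hx : ∀ n, n0 ≤ n → x n - c ∈ N) : a - c ∈ N := by
  obtain ⟨W, hW, hWN⟩ := hN
  refine (hWN _).2 fun j => ?_
  obtain ⟨n, hn, hn'⟩ := h.frequently (hW.mem (j + 1)) n0
  have h1 := (hWN _).1 (hx n hn) (j + 1)
  have h2 : a - c = -(x n - a) + (x n - c) := by abel
  rw [h2]
  exact hW.add j _ _ (hW.neg _ _ hn') h1

/-- a subsequence converging modulo the closed G-delta subgroup of `W` -/
theorem Acc.subseq {x : ℕ → G} {a : G} (h : Acc x a) (W : ℕ → Set G) (hW : ∀ j, W j ∈ 𝓝 (0 : G)) :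
    ∃ φ : ℕ → ℕ, StrictMono φ ∧ ∀ k, x (φ k) - a ∈ W k := by
  have step : ∀ (j n0 : ℕ), ∃ n, n0 < n ∧ x n - a ∈ W j := by
    intro j n0
    obtain ⟨n, h1, h2⟩ := h.frequently (hW j) (n0 + 1)
    exact ⟨n, h1, h2⟩
  choose f hf1 hf2 using step
  let φ : ℕ → ℕ := fun k => Nat.rec (f 0 0) (fun j m => f (j + 1) m) k
  have hφ : ∀ k, φ (k + 1) = f (k + 1) (φ k) := fun k => rfl
  refine ⟨φ, strictMono_nat_of_lt_succ fun k => ?_, fun k => ?_⟩
  · rw [hφ]; exact hf1 _ _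
  · cases k with
    | zero => exact hf2 0 0
    | succ k => rw [hφ]; exact hf2 _ _

/-- completeness of the P-topology, inside a closed subset -/
theorem completeK (hG : CC G) {K : Set G} (hK : IsClosed K) (N : ℕ → AddSubgroup G)
    (hN : ∀ k, PO (N k)) (ha : Antitone N)
    (s : ℕ → G) (hsK : ∀ k, s k ∈ K) (hs : ∀ k, s (k + 1) - s k ∈ N k) :
    ∃ g ∈ K, ∀ k, g - s k ∈ N k := by
  have hs' : ∀ k l, k ≤ l → s l - s k ∈ N k := by
    intro k l hkl
    induction l, hkl using Nat.le_induction with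
    | base => simp
    | succ l hkl ih =>
      have := (N k).add_mem (ha hkl (hs l)) ih
      simpa using this
  obtain ⟨g, hg⟩ := hG s
  exact ⟨g, hg.mem_closed hK 0 (fun n _ => hsK n), fun k => hg.sub_mem_PO (hN k) k (hs' k)⟩

/-- P-nowhere dense sets, relative to a subgroup `K` -/
def NWDK (K : AddSubgroup G) (E : Set G) : Prop :=
  ∀ s ∈ K, ∀ N : AddSubgroup G, PO N → ∃ g ∈ N ⊓ K, ∃ N' : AddSubgroup G, PO N' ∧ N' ≤ N ∧
    ∀ n ∈ N' ⊓ K, s + g + n ∉ E

theorem baireK (hG : CC G) {K : AddSubgroup G} (hK : IsClosed (K : Set G)) (E : ℕ → Set G)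
    (hE : ∀ j, NWDK K (E j)) (N0 : AddSubgroup G)
    (h0 : PO N0) : ∃ g ∈ N0 ⊓ K, ∀ j, g ∉ E j := by
  classical
  have step : ∀ (j : ℕ) (q : {q : G × AddSubgroup G // q.1 ∈ K ∧ PO q.2}),
      ∃ q' : {q : G × AddSubgroup G // q.1 ∈ K ∧ PO q.2}, q'.1.1 - q.1.1 ∈ q.1.2 ∧ q'.1.2 ≤ q.1.2 ∧
        ∀ n ∈ q'.1.2 ⊓ K, q'.1.1 + n ∉ E j := by
    rintro j ⟨⟨s, N⟩, hs, hN⟩
    obtain ⟨g, hg, N', hN', hle, h⟩ := hE j s hs N hN
    exact ⟨⟨(s + g, N'), K.add_mem hs hg.2, hN'⟩, by simpa using hg.1, hle, h⟩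
  choose f hf1 hf2 hf3 using step
  let S : ℕ → {q : G × AddSubgroup G // q.1 ∈ K ∧ PO q.2} := fun n =>
    Nat.rec ⟨(0, N0), K.zero_mem, h0⟩ (fun j q => f j q) n
  have hS : ∀ j, S (j + 1) = f j (S j) := fun j => rfl
  obtain ⟨g, hgK, hg⟩ := completeK hG hK (fun k => (S k).1.2) (fun k => (S k).2.2)
    (antitone_nat_of_succ_le fun k => by rw [hS]; exact hf2 k (S k))
    (fun k => (S k).1.1) (fun k => (S k).2.1) (fun k => by rw [hS]; exact hf1 k (S k))
  have hg0 : g - 0 ∈ N0 := hg 0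
  refine ⟨g, ⟨by simpa using hg0, hgK⟩, fun j => ?_⟩
  have h1 := hg (j + 1)
  have h2 := hf3 j (S j)
  rw [← hS j] at h2
  have h4 : g - (S (j + 1)).1.1 ∈ K := K.sub_mem hgK (S (j + 1)).2.1
  have h3 := h2 _ ⟨h1, h4⟩
  simpa using h3

/-- an endomorphism killing `N ∩ K`, `N = ⋂ W j`, is small on some `W j ∩ K` -/
theorem small_of_killK (hG : CC G) {K : AddSubgroup G} (hK : IsClosed (K : Set G))
    {W : ℕ → Set G} (hW : Nice W) (f : G →+ G)
    (hf : Continuous f) (hN : ∀ x ∈ K, (∀ j, x ∈ W j) → f x = 0) {V : Set G}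
    (hV : V ∈ 𝓝 (0 : G)) : ∃ j, ∀ w ∈ W j, w ∈ K → f w ∈ V := by
  by_contra hcon
  push Not at hcon
  choose w hw hwK hwV using hcon
  obtain ⟨a, ha⟩ := hG w
  have haK : a ∈ K := ha.mem_closed hK 0 (fun n _ => hwK n)
  have haW : ∀ i, a ∈ W i := by
    intro i
    obtain ⟨n, hn, hn'⟩ := ha.frequently (hW.mem (i + 1)) (i + 1)
    have h2 : a = -(w n - a) + w n := by abel
    rw [h2]
    exact hW.add i _ _ (hW.neg _ _ hn') (hW.anti hn (hw n))
  have h0 := hN a haK haW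
  have h1 : f ⁻¹' V ∈ 𝓝 (0 : G) := (hf.tendsto 0) (by rw [map_zero]; exact hV)
  obtain ⟨n, -, hn⟩ := ha.frequently h1 0
  apply hwV n
  have h2 : f (w n - a) ∈ V := hn
  rwa [map_sub, h0, sub_zero] at h2

/-- in a non-metrizable group every closed G-delta subgroup is nonzero -/
theorem exists_ne_zero [T2Space G] (hG : CC G) (hm : ¬ TopologicalSpace.MetrizableSpace G)
    (N : AddSubgroup G) (hN : PO N) : ∃ x ∈ N, x ≠ 0 := by
  by_contra hcon
  push Not at hcon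
  apply hm
  obtain ⟨W, hW, hWN⟩ := hN
  have hb : (𝓝 (0 : G)).HasBasis (fun _ : ℕ => True) W := by
    rw [hasBasis_iff]
    intro V
    constructor
    · intro hV
      obtain ⟨j, hj⟩ := small_of_killK hG (K := ⊤) (by simp) hW (AddMonoidHom.id G) continuous_id
        (fun x _ hx => hcon x ((hWN x).2 hx)) hV
      exact ⟨j, trivial, fun w hw => hj w hw trivial⟩
    · rintro ⟨j, -, hj⟩
      exact mem_of_superset (hW.mem j) hj
  have : (𝓝 (0 : G)).IsCountablyGenerated := hb.isCountablyGenerated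
  let _ : UniformSpace G := IsTopologicalAddGroup.rightUniformSpace G
  have : IsUniformAddGroup G := isUniformAddGroup_of_addCommGroup
  have : (uniformity G).IsCountablyGenerated := IsUniformAddGroup.uniformity_countably_generated
  exact UniformSpace.metrizableSpace

/-- total boundedness -/
theorem exists_finset (hG : CC G) {V : Set G} (hV : V ∈ 𝓝 (0 : G)) :
    ∃ F : Finset G, ∀ g : G, ∃ f ∈ F, g - f ∈ V := by
  by_contra hcon
  push Not at hcon
  obtain ⟨V1, hV1, hs1, ha1⟩ := exists_half hV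
  obtain ⟨s, -, hs⟩ := exists_seq_of_forall_finset_exists (fun _ : G => True)
    (fun x y => y - x ∉ V) (fun F _ => by
      obtain ⟨g, hg⟩ := hcon F
      exact ⟨g, trivial, hg⟩)
  obtain ⟨a, ha⟩ := hG s
  obtain ⟨j, -, hj⟩ := ha.frequently hV1 0
  obtain ⟨i, hij, hi⟩ := ha.frequently hV1 (j + 1)
  refine hs j i (by omega) ?_
  have h2 : s i - s j = (s i - a) + -(s j - a) := by abel
  rw [h2]
  exact ha1 _ hi _ (hs1 _ hj)

/-- if `m N = 0` for some closed G-delta subgroup then `m G` meets some closed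
G-delta subgroup trivially -/
theorem exists_PO_inf [T2Space G] (hG : CC G) (m : ℕ) (N : AddSubgroup G) (hN : PO N)
    (hm : ∀ x ∈ N, m • x = 0) :
    ∃ N' : AddSubgroup G, PO N' ∧ ∀ g : G, m • g ∈ N' → m • g = 0 := by
  classical
  obtain ⟨W, hW, hWN⟩ := hN
  choose F hF using fun j => exists_finset hG (hW.mem j)
  have hU : ∀ j, ∃ U ∈ 𝓝 (0 : G), ∀ f ∈ F j, (∀ V ∈ 𝓝 (0 : G), ∃ w ∈ W j, m • (f + w) ∈ V) ∨
      (∀ w ∈ W j, m • (f + w) ∉ U) := by
    intro j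
    have : ∀ f : G, ∃ U ∈ 𝓝 (0 : G), (∀ V ∈ 𝓝 (0 : G), ∃ w ∈ W j, m • (f + w) ∈ V) ∨
      (∀ w ∈ W j, m • (f + w) ∉ U) := by
      intro f
      by_cases h : ∀ V ∈ 𝓝 (0 : G), ∃ w ∈ W j, m • (f + w) ∈ V
      · exact ⟨univ, univ_mem, Or.inl h⟩
      · push Not at h
        obtain ⟨V, hV, h⟩ := h
        exact ⟨V, hV, Or.inr h⟩
    choose U hU hU' using this
    refine ⟨⋂ f ∈ F j, U f, (Filter.biInter_finset_mem _).2 fun f _ => hU f, ?_⟩
    intro f hf
    rcases hU' f with h | h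
    · exact Or.inl h
    · refine Or.inr fun w hw hmem => h w hw ?_
      exact (mem_iInter₂.1 hmem) f hf
  choose U hU1 hU2 using hU
  obtain ⟨N', hN', h⟩ := exists_PO U hU1
  refine ⟨N', hN', fun g hg => ?_⟩
  by_contra hne
  have hnh : ({m • g}ᶜ : Set G) ∈ 𝓝 (0 : G) :=
    isOpen_compl_singleton.mem_nhds (by simpa using Ne.symm hne)
  obtain ⟨V1, hV1, hs1, ha1⟩ := exists_half hnh
  obtain ⟨V2, hV2, hs2, ha2⟩ := exists_half hV1
  obtain ⟨j, hj⟩ := small_of_killK hG (K := ⊤) (by simp) hW (nsmulAddMonoidHom m)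
    (continuous_nsmul m) (fun x _ hx => hm x ((hWN x).2 hx)) hV2
  simp only [nsmulAddMonoidHom_apply] at hj
  obtain ⟨f, hf, hgf⟩ := hF j g
  rcases hU2 j f hf with h1 | h1
  · obtain ⟨w, hw, hw'⟩ := h1 V2 hV2
    have h2 : m • g = (m • (f + w) + m • (g - f)) + (0 + - (m • w)) := by
      rw [smul_add, smul_sub]; abel
    have h3 := ha1 _ (ha2 _ hw' _ (hj _ hgf trivial)) _
      (ha2 _ (mem_of_mem_nhds hV2) _ (hs2 _ (hj _ hw trivial)))
    rw [← h2] at h3
    exact h3 rfl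
  · have := h (m • g) hg j
    refine h1 (g - f) hgf ?_
    simpa using this

end

end CCG
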