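import Pool.Agent.CCG.Stage

/-!
# Cofinal families and the main recursion
-/

open Filter Topology Set SSPG Cardinal

set_option linter.unusedSectionVars false

namespace CCG

universe u v

variable {G : Type u} [AddCommGroup G] [TopologicalSpace G] [IsTopologicalAddGroup G]

/-- cofinality: traces of the closed G-delta subgroups on a separable closed subgroup -/
theorem exists_cofinal (d : ℕ → G) (K : AddSubgroup G) (hK : (K : Set G) = closure (range d)) :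
    ∃ N' : (ℕ → Set ℕ) → AddSubgroup G, (∀ s, PO (N' s)) ∧
      ∀ N : AddSubgroup G, PO N → ∃ s, N' s ⊓ K ≤ N := by
  classical
  obtain ⟨W0, hW0, -⟩ := exists_PO (G := G) (fun _ => univ) (fun _ => univ_mem)
  have h1 : ∀ s : ℕ → Set ℕ, ∃ M : AddSubgroup G, PO M ∧
      ((∃ M' : AddSubgroup G, PO M' ∧ ∀ x ∈ M' ⊓ K, ∀ j, x ∈ closure (d '' s j)) →
        ∀ x ∈ M ⊓ K, ∀ j, x ∈ closure (d '' s j)) := by
    intro s
    by_cases h : ∃ M' : AddSubgroup G, PO M' ∧ ∀ x ∈ M' ⊓ K, ∀ j, x ∈ closure (d '' s j)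
    · obtain ⟨M', hM', h'⟩ := h
      exact ⟨M', hM', fun _ => h'⟩
    · exact ⟨W0, hW0, fun h' => absurd h' h⟩
  choose N' hN' hN'' using h1
  refine ⟨N', hN', fun N hN => ?_⟩
  obtain ⟨W, hW, hWN⟩ := hN
  refine ⟨fun j => {n | d n ∈ W (j + 1)}, ?_⟩
  have h2 := hN'' (fun j => {n | d n ∈ W (j + 1)}) ⟨N, ⟨W, hW, hWN⟩, by
    rintro x ⟨hxN, hxK⟩ j
    have hxK' : x ∈ closure (range d) := by rw [← hK]; exact hxK
    rw [mem_closure_iff]
    intro O hO hxO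
    have h3 : {y : G | y - x ∈ {v : G | x + v ∈ O} ∩ W (j + 1 + 1)} ∈ 𝓝 x := by
      have h4 : Tendsto (fun y : G => y - x) (𝓝 x) (𝓝 (x - x)) := tendsto_id.sub_const x
      rw [sub_self] at h4
      exact h4 (inter_mem (nhds_of_open hO hxO) (hW.mem _))
    obtain ⟨y, hy, n, rfl⟩ := mem_closure_iff_nhds.1 hxK' _ h3
    have h5 : x + (d n - x) ∈ O := hy.1
    have h6 : x + (d n - x) ∈ W (j + 1) := hW.add (j + 1) _ _ ((hWN x).1 hxN _) hy.2
    rw [add_sub_cancel] at h5 h6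
    exact ⟨d n, h5, n, h6, rfl⟩⟩
  intro x hx
  rw [hWN]
  intro j
  have h3 := h2 x hx j
  have h4 : {y : G | y - x ∈ W (j + 1)} ∈ 𝓝 x := by
    have h4 : Tendsto (fun y : G => y - x) (𝓝 x) (𝓝 (x - x)) := tendsto_id.sub_const x
    rw [sub_self] at h4
    exact h4 (hW.mem _)
  obtain ⟨y, hy, n, hn, rfl⟩ := mem_closure_iff_nhds.1 h3 _ h4
  have h5 : x = -(d n - x) + d n := by abel
  rw [h5]
  exact hW.add j _ _ (hW.neg _ _ hy) hn

/-- **The main recursion.** -/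
theorem caseR (hG : CC G) {F : Type} [Field F] [Countable F] {V : Type v} [AddCommGroup V]
    [Module F V] (q : G →+ V) (d : ℕ → G) (K : AddSubgroup G)
    (hK : (K : Set G) = closure (range d)) (hR : RProp q K) :
    ∃ χ : G →+ F, χ.ker ≠ ⊤ ∧ GD χ.ker ∧ SPC χ.ker := by
  classical
  have hKc : IsClosed (K : Set G) := by rw [hK]; exact isClosed_closure
  obtain ⟨N', hN', hcof⟩ := exists_cofinal d K hK
  have hT : #((ℕ → Set ℕ) × (ℕ → F)) ≤ 𝔠 := by
    have h1 : #(ℕ → Set ℕ) = 𝔠 := by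
      rw [← Cardinal.power_def, Cardinal.mk_set, Cardinal.mk_nat, Cardinal.two_power_aleph0,
        Cardinal.continuum_power_aleph0]
    have h2 : #(ℕ → F) ≤ 𝔠 := by
      rw [← Cardinal.power_def, Cardinal.mk_nat]
      refine (Cardinal.power_le_power_right (Cardinal.mk_le_aleph0 (α := F))).trans ?_
      rw [Cardinal.aleph0_power_aleph0]
    rw [Cardinal.mk_prod, Cardinal.lift_id, Cardinal.lift_id, h1]
    exact (mul_le_mul_right h2 _).trans (Cardinal.continuum_mul_self).le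
  obtain ⟨ψ, hψ⟩ := exists_functional_of_stage (F := F) hT (X := G) (fun g => q g)
    (fun t => t.2) (fun t v => (∀ k, v k ∈ N' t.1 ⊓ K) ∧ Acc v 0)
    (fun t S s hS => hR.stage hG hKc (N' t.1) (hN' t.1) S s hS)
  let χ : G →+ F := ψ.toAddMonoidHom.comp q
  have hχ : ∀ g, χ g = ψ (q g) := fun g => rfl
  have hacc : ∀ N : AddSubgroup G, PO N → ∀ b : ℕ → F, ∃ (n0 : ℕ) (v : ℕ → G),
      (∀ j, n0 ≤ j → v j ∈ N ∧ χ (v j) = b j) ∧ Acc v 0 := by
    intro N hN b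
    obtain ⟨s, hs⟩ := hcof N hN
    obtain ⟨v, ⟨hv1, hv2⟩, hv3⟩ := hψ (s, b)
    exact ⟨0, v, fun j _ => ⟨hs (hv1 j), hv3 j⟩, hv2⟩
  refine ⟨χ, ?_, spc_of_acc hG χ hacc⟩
  intro htop
  obtain ⟨W0, hW0, -⟩ := exists_PO (G := G) (fun _ => univ) (fun _ => univ_mem)
  obtain ⟨n0, v, hv, -⟩ := hacc W0 hW0 (fun _ => 1)
  have h1 : v n0 ∈ χ.ker := by rw [htop]; trivial
  rw [AddMonoidHom.mem_ker, (hv n0 le_rfl).2] at h1
  exact one_ne_zero h1

end CCG
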