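import Pool.Agent.CCG.Base

/-!
# Criteria for kernels of homomorphisms to be selectively pseudocompact
-/

open Filter Topology Set SSPG

set_option linter.unusedSectionVars false

namespace CCG

variable {G : Type*} [AddCommGroup G] [TopologicalSpace G] [IsTopologicalAddGroup G]

/-- open sets of a dense subgroup: points and neighbourhoods -/
theorem setup {A : Type*} [AddCommGroup A] (χ : G →+ A) (O : ℕ → Set χ.ker)
    (hO : ∀ n, IsOpen (O n)) (hne : ∀ n, (O n).Nonempty) (V0 : ℕ → Set G)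
    (hV0 : ∀ j, V0 j ∈ 𝓝 (0 : G)) :
    ∃ (h : ℕ → G) (W : ℕ → Set G), (∀ n, χ (h n) = 0) ∧ Nice W ∧ (∀ j, W j ⊆ V0 j) ∧
      ∀ n v (hv : χ (h n + v) = 0), v ∈ W n → (⟨h n + v, hv⟩ : χ.ker) ∈ O n := by
  have hO' : ∀ n, ∃ U : Set G, IsOpen U ∧ (Subtype.val : χ.ker → G) ⁻¹' U = O n := fun n =>
    isOpen_induced_iff.1 (hO n)
  choose U hU hUO using hO'
  choose h hh using hne
  have hhU : ∀ n, (h n).1 ∈ U n := by
    intro n
    have := hh n
    rw [← hUO n] at this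
    exact this
  obtain ⟨W, hW, hWV⟩ := exists_nice (fun n => {v : G | (h n).1 + v ∈ U n} ∩ V0 n)
    (fun n => inter_mem (nhds_of_open (hU n) (hhU n)) (hV0 n))
  refine ⟨fun n => (h n).1, W, fun n => (h n).2, hW, fun j v hv => (hWV j hv).2, ?_⟩
  intro n v hv hvW
  rw [← hUO n]
  exact (hWV n hvW).1

/-- **Criterion S.** -/
theorem spc_of_acc (hG : CC G) {A : Type*} [AddCommGroup A] (χ : G →+ A)
    (hS : ∀ N : AddSubgroup G, PO N → ∀ b : ℕ → A, ∃ (n0 : ℕ) (v : ℕ → G),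
      (∀ j, n0 ≤ j → v j ∈ N ∧ χ (v j) = b j) ∧ Acc v 0) :
    GD χ.ker ∧ SPC χ.ker := by
  classical
  have hGD : ∀ N : AddSubgroup G, PO N → ∀ g : G, ∃ n ∈ N, χ n = χ g := by
    intro N hN g
    obtain ⟨n0, v, hv, -⟩ := hS N hN (fun _ => χ g)
    exact ⟨v n0, (hv n0 le_rfl).1, (hv n0 le_rfl).2⟩
  refine ⟨fun N hN g => ?_, ?_⟩
  · obtain ⟨n, hn, hn'⟩ := hGD N hN g
    exact ⟨n, hn, by rw [AddMonoidHom.mem_ker, map_sub, hn', sub_self]⟩
  apply SPC.of
  intro O hO hne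
  obtain ⟨h, W, hh, hW, -, hOm⟩ := setup χ O hO hne (fun _ => univ) (fun _ => univ_mem)
  obtain ⟨N, hN⟩ := hW.exists_sub
  have hPN : PO N := ⟨W, hW, hN⟩
  -- convergence modulo N along a subsequence
  obtain ⟨x, hx⟩ := hG h
  obtain ⟨ι, hι, hιx⟩ := hx.subseq W hW.mem
  -- accumulation points of the blocks
  choose y hy using fun j : ℕ => hG (fun k => h (ι (Nat.pair j k)))
  have hyx : ∀ j, y j - x ∈ N := by
    intro j
    refine (hN _).2 fun i => ?_
    obtain ⟨n, hn, hn'⟩ := (hy j).frequently (hW.mem (i + 1)) (i + 1)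
    have h1 : h (ι (Nat.pair j n)) - x ∈ W (i + 1) :=
      hW.anti (hn.trans (Nat.right_le_pair j n)) (hιx _)
    have h2 : y j - x = -(h (ι (Nat.pair j n)) - y j) + (h (ι (Nat.pair j n)) - x) := by abel
    rw [h2]
    exact hW.add i _ _ (hW.neg _ _ hn') h1
  obtain ⟨c, hcN, hc⟩ := hGD N hPN x
  obtain ⟨n0, v, hv, hva⟩ := hS N hPN (fun j => χ (y j))
  -- the corrections
  let w : ℕ → G := fun m => if n0 ≤ (Nat.unpair m).1 then
    -(y (Nat.unpair m).1 - (x - c)) + v (Nat.unpair m).1 else 0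
  have hwN : ∀ m, w m ∈ N := by
    intro m
    by_cases hm : n0 ≤ (Nat.unpair m).1
    · have h1 : w m = -((y (Nat.unpair m).1 - x) + c) + v (Nat.unpair m).1 := by
        simp only [w, if_pos hm]; abel
      rw [h1]
      exact N.add_mem (N.neg_mem (N.add_mem (hyx _) hcN)) (hv _ hm).1
    · simp only [w, if_neg hm]
      exact N.zero_mem
  have hwχ : ∀ m, χ (h (ι m) + w m) = 0 := by
    intro m
    rw [map_add, hh, zero_add]
    by_cases hm : n0 ≤ (Nat.unpair m).1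
    · simp only [w, if_pos hm, map_add, map_neg, map_sub, (hv _ hm).2, hc, sub_self, sub_zero,
        neg_add_cancel]
    · simp only [w, if_neg hm, map_zero]
  refine ⟨ι, hι, fun m => ⟨h (ι m) + w m, hwχ m⟩,
    ⟨x - c, by rw [AddMonoidHom.mem_ker, map_sub, hc, sub_self]⟩, fun m => ?_, ?_⟩
  · exact hOm (ι m) (w m) (hwχ m) ((hN _).1 (hwN m) _)
  · intro Q hQ hxQ
    obtain ⟨Q', hQ', rfl⟩ := isOpen_induced_iff.1 hQ
    obtain ⟨V, hV, hVs, hVa⟩ := exists_half (nhds_of_open hQ' hxQ)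
    obtain ⟨j, hj, hj'⟩ := hva.frequently hV n0
    rw [sub_zero] at hj'
    refine ((hy j V hV).image (f := fun k => Nat.pair j k) (fun a _ b _ hab => ?_)).mono ?_
    · have := congrArg Nat.unpair hab
      simpa using this
    · rintro _ ⟨k, hk, rfl⟩
      show h (ι (Nat.pair j k)) + w (Nat.pair j k) ∈ Q'
      have h1 : h (ι (Nat.pair j k)) + w (Nat.pair j k) =
          (x - c) + ((h (ι (Nat.pair j k)) - y j) + v j) := by
        simp only [w, Nat.unpair_pair, if_pos hj]; abel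
      rw [h1]
      exact hVa _ hk _ hj'

/-- **Criterion S'.** -/
theorem spc_of_conv [T2Space G] (hG : CC G) {A : Type*} [AddCommGroup A] (χ : G →+ A)
    (hGD : ∀ N : AddSubgroup G, PO N → ∀ g : G, ∃ n ∈ N, χ n = χ g)
    (N0 : AddSubgroup G) (hN0 : PO N0) (m : ℕ) (hker : ∀ w ∈ N0, m • w = 0 → χ w = 0)
    (hconv : ∀ h : ℕ → G, ∃ ι : ℕ → ℕ, StrictMono ι ∧ ∃ z : G,
      Tendsto (fun k => m • h (ι k)) atTop (𝓝 z)) :
    GD χ.ker ∧ SPC χ.ker := by
  classical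
  refine ⟨fun N hN g => ?_, ?_⟩
  · obtain ⟨n, hn, hn'⟩ := hGD N hN g
    exact ⟨n, hn, by rw [AddMonoidHom.mem_ker, map_sub, hn', sub_self]⟩
  apply SPC.of
  intro O hO hne
  obtain ⟨W0, hW0, hN0W⟩ := hN0
  obtain ⟨h, W, hh, hW, hWW0, hOm⟩ := setup χ O hO hne W0 hW0.mem
  obtain ⟨N, hN⟩ := hW.exists_sub
  have hPN : PO N := ⟨W, hW, hN⟩
  have hNN0 : N ≤ N0 := fun g hg => (hN0W g).2 fun j => hWW0 j ((hN g).1 hg j)
  obtain ⟨ι1, hι1, z, hz⟩ := hconv h
  obtain ⟨x, hx⟩ := hG (h ∘ ι1)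
  obtain ⟨ι2, hι2, hιx⟩ := hx.subseq W hW.mem
  set ι : ℕ → ℕ := ι1 ∘ ι2 with hιdef
  have hι : StrictMono ι := hι1.comp hι2
  have hιx' : ∀ k, h (ι k) - x ∈ W k := hιx
  have hz' : Tendsto (fun k => m • h (ι k)) atTop (𝓝 z) := hz.comp hι2.tendsto_atTop
  obtain ⟨c, hcN, hc⟩ := hGD N hPN (-x)
  rw [map_neg] at hc
  -- the corrections
  let t : ℕ → ℕ := fun k => ι k + 1
  let w : ℕ → G := fun k => -(h (ι (t k)) - x) + c
  have hwχ : ∀ k, χ (h (ι k) + w k) = 0 := by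
    intro k
    simp only [w, map_add, map_neg, map_sub, hh, hc]
    abel
  obtain ⟨y, hy⟩ := hG (fun k => h (ι k) + w k)
  -- the accumulation point
  have hu : Acc (fun k => h (ι k) - h (ι (t k))) (y - (x + c)) := by
    intro V hV
    refine (hy V hV).mono ?_
    intro k hk
    have h1 : h (ι k) - h (ι (t k)) - (y - (x + c)) = h (ι k) + w k - y := by
      simp only [w]; abel
    show h (ι k) - h (ι (t k)) - (y - (x + c)) ∈ V
    rw [h1]
    exact hk
  have huN : y - (x + c) ∈ N := by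
    refine (hN _).2 fun i => ?_
    obtain ⟨k, hk, hk'⟩ := hu.frequently (hW.mem (i + 1)) (i + 1 + 1)
    have h1 : h (ι k) - x ∈ W (i + 1 + 1) := hW.anti hk (hιx' k)
    have h3 : h (ι (t k)) - x ∈ W (i + 1 + 1) :=
      hW.anti (hk.trans ((hι.id_le k).trans (Nat.le_succ _))) (hιx' (t k))
    have h2 : y - (x + c) = -(h (ι k) - h (ι (t k)) - (y - (x + c))) +
      ((h (ι k) - x) + -(h (ι (t k)) - x)) := by abel
    rw [h2]
    exact hW.add i _ _ (hW.neg _ _ hk') (hW.add (i + 1) _ _ h1 (hW.neg _ _ h3))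
  have hum : m • (y - (x + c)) = 0 := by
    by_contra hne0
    obtain ⟨V1, hV1, hs1, ha1⟩ := exists_half
      (show ({m • (y - (x + c))}ᶜ : Set G) ∈ 𝓝 (0 : G) from
        isOpen_compl_singleton.mem_nhds (by simpa using Ne.symm hne0))
    have hcm : Continuous (fun g : G => m • g) := continuous_nsmul m
    have h1 : (fun g : G => m • g) ⁻¹' V1 ∈ 𝓝 (0 : G) :=
      (hcm.tendsto 0) (by rw [smul_zero]; exact hV1)
    have ht : Tendsto t atTop atTop :=
      tendsto_atTop_mono (fun k => (hι.id_le k).trans (Nat.le_succ _)) tendsto_id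
    have h2 : Tendsto (fun k => m • h (ι k) - m • h (ι (t k))) atTop (𝓝 (z - z)) :=
      hz'.sub (hz'.comp ht)
    rw [sub_self] at h2
    obtain ⟨K, hK⟩ := eventually_atTop.1 (h2.eventually_mem hV1)
    obtain ⟨k, hk, hk'⟩ := hu.frequently h1 K
    have h3 : m • (h (ι k) - h (ι (t k)) - (y - (x + c))) ∈ V1 := hk'
    have h4 := ha1 _ (hs1 _ h3) _ (hK k hk)
    apply h4
    show -(m • (h (ι k) - h (ι (t k)) - (y - (x + c)))) + (m • h (ι k) - m • h (ι (t k))) =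
      m • (y - (x + c))
    simp only [smul_sub]
    abel
  have hyχ : χ y = 0 := by
    have h1 := hker _ (hNN0 huN) hum
    rw [map_sub, map_add, hc, add_neg_cancel, sub_zero] at h1
    exact h1
  refine ⟨ι, hι, fun k => ⟨h (ι k) + w k, hwχ k⟩, ⟨y, hyχ⟩, fun k => ?_, ?_⟩
  · refine hOm (ι k) (w k) (hwχ k) ?_
    have h3 : h (ι (t k)) - x ∈ W (ι k + 1) := by
      refine hW.anti ?_ (hιx' (t k))
      exact le_rfl
    exact hW.add _ _ _ (hW.neg _ _ h3) ((hN _).1 hcN _)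
  · intro Q hQ hyQ
    obtain ⟨Q', hQ', rfl⟩ := isOpen_induced_iff.1 hQ
    exact hy.open_mem hQ' hyQ

end CCG
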