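import Pool.Agent.CCG.Cof
import Pool.Agent.SSPG.CaseB
import Pool.Agent.SSPG.Func

/-!
# The main theorem for countably compact groups
-/

open Filter Topology Set SSPG TopologicalSpace

set_option linter.unusedSectionVars false

namespace CCG

universe u

variable {G : Type u} [AddCommGroup G] [TopologicalSpace G] [IsTopologicalAddGroup G]

theorem baire_cc {κ : Type*} [Countable κ] (hG : CC G) (E : κ → Set G)
    (hE : ∀ j, NWD (E j)) (N0 : AddSubgroup G) (h0 : PO N0) : ∃ g ∈ N0, ∀ j, g ∉ E j := by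
  rcases isEmpty_or_nonempty κ with he | hne
  · exact ⟨0, N0.zero_mem, fun j => (IsEmpty.false j).elim⟩
  · obtain ⟨f, hf⟩ := exists_surjective_nat κ
    obtain ⟨g, h1, h2⟩ := baireK hG (K := ⊤) (by simp) (fun n => E (f n)) (fun n s _ N hN => by
      obtain ⟨g, hg, N', hN', hle, h⟩ := hE (f n) s N hN
      exact ⟨g, ⟨hg, trivial⟩, N', hN', hle, fun n hn => h n hn.1⟩) N0 h0
    refine ⟨g, h1.1, fun k => ?_⟩
    obtain ⟨n, rfl⟩ := hf k
    exact h2 n

/-- Lemma S -/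
theorem lemmaS_cc (hG : CC G) {ι A : Type*} [AddCommGroup A] (e : ι → G →+ A)
    (hfin : ∀ g, {i | e i g ≠ 0}.Finite) (h : ∀ i, ∃ N : AddSubgroup G, PO N ∧ ∀ x ∈ N, e i x = 0)
    (N0 : AddSubgroup G) (h0 : PO N0) :
    ∃ N : AddSubgroup G, PO N ∧ N ≤ N0 ∧ ∀ i, ∀ x ∈ N, e i x = 0 := by
  classical
  by_contra hcon
  have hcon' : ∀ N : AddSubgroup G, PO N → N ≤ N0 → ∃ i, ∃ x ∈ N, e i x ≠ 0 := by
    intro N hN hle
    by_contra h'
    push Not at h'
    exact hcon ⟨N, hN, hle, h'⟩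
  choose K hK hK' using h
  have hT : ∀ T : Finset ι, ∀ N : AddSubgroup G, PO N → ∃ N' : AddSubgroup G, PO N' ∧ N' ≤ N ∧
      ∀ i ∈ T, ∀ x ∈ N', e i x = 0 := by
    intro T N hN
    obtain ⟨N', h1, h2, h3⟩ := exists_PO_le_of_countable (fun i : T => K i.1) (fun i => hK i.1) N hN
    exact ⟨N', h1, h2, fun i hi x hx => hK' i x (h3 ⟨i, hi⟩ hx)⟩
  have key : ∀ n : ℕ, ∀ (s : G) (N : AddSubgroup G), PO N → N ≤ N0 →
      ∃ g ∈ N, ∃ T : Finset ι, T.card = n ∧ ∀ i ∈ T, e i (s + g) ≠ 0 := by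
    intro n
    induction n with
    | zero => intro s N _ _; exact ⟨0, N.zero_mem, ∅, rfl, by simp⟩
    | succ n ih =>
      intro s N hN hle
      obtain ⟨g, hg, T, hTc, hTe⟩ := ih s N hN hle
      obtain ⟨N1, hN1, hle1, hN1e⟩ := hT T N hN
      obtain ⟨i, x, hx, hix⟩ := hcon' N1 hN1 (hle1.trans hle)
      have hiT : i ∉ T := fun hi => hix (hN1e i hi x hx)
      by_cases hz : e i (s + g) = 0
      · refine ⟨g + x, N.add_mem hg (hle1 hx), insert i T, ?_, ?_⟩
        · rw [Finset.card_insert_of_notMem hiT, hTc]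
        · intro i' hi'
          rw [Finset.mem_insert] at hi'
          rw [← add_assoc, map_add]
          rcases hi' with rfl | hi'
          · rw [hz, zero_add]; exact hix
          · rw [hN1e i' hi' x hx, add_zero]; exact hTe i' hi'
      · refine ⟨g, hg, insert i T, ?_, ?_⟩
        · rw [Finset.card_insert_of_notMem hiT, hTc]
        · intro i' hi'
          rw [Finset.mem_insert] at hi'
          rcases hi' with rfl | hi'
          · exact hz
          · exact hTe i' hi'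
  have hnwd : ∀ n : ℕ, NWD {g : G | g ∈ N0 ∧ {i | e i g ≠ 0}.ncard ≤ n} := by
    intro n s N hN
    obtain ⟨N1, hN1, hle1, hle0⟩ := exists_PO_le_two N N0 hN h0
    obtain ⟨g, hg, T, hTc, hTe⟩ := key (n + 1) s N1 hN1 hle0
    obtain ⟨N', hN', hle', hN'e⟩ := hT T N hN
    refine ⟨g, hle1 hg, N', hN', hle', fun x hx hmem => ?_⟩
    have h1 : (T : Set ι) ⊆ {i | e i (s + g + x) ≠ 0} := by
      intro i hi
      have hi' : i ∈ T := by simpa using hi
      simp only [mem_ofPred_eq, map_add, hN'e i hi' x hx, add_zero]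
      simpa using hTe i hi'
    have h2 := Set.ncard_le_ncard h1 (hfin _)
    rw [Set.ncard_coe_finset, hTc] at h2
    have := hmem.2
    omega
  obtain ⟨g, hg, hg'⟩ := baire_cc hG _ hnwd N0 h0
  exact hg' ({i | e i g ≠ 0}.ncard) ⟨hg, le_rfl⟩

/-- the unbounded case: infinitely many coordinates are nonzero on all closed G-delta subgroups -/
theorem infinite_coord_cc [T2Space G] (hG : CC G) {ι : Type*} (e : ι → G →+ ℚ)
    (hfin : ∀ g, {i | e i g ≠ 0}.Finite) (htors : ∀ g, (∀ i, e i g = 0) → ∃ m : ℕ, (m + 1) • g = 0)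
    (hub : ∀ N : AddSubgroup G, PO N → ∀ m : ℕ, ∃ g ∈ N, (m + 1) • g ≠ 0)
    (hex : ∃ N : AddSubgroup G, PO N) :
    {i | ∀ N : AddSubgroup G, PO N → ∃ x ∈ N, e i x ≠ 0}.Infinite := by
  classical
  intro hA
  obtain ⟨N0, h0⟩ := hex
  obtain ⟨Ns, hNs, hle, hNse⟩ := lemmaS_cc hG
    (fun i : {i // i ∉ {i | ∀ N : AddSubgroup G, PO N → ∃ x ∈ N, e i x ≠ 0}} => e i.1)
    (fun g => ((hfin g).preimage (Subtype.val_injective.injOn)).subset (fun i hi => hi))
    (fun i => by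
      have := i.2
      simp only [mem_ofPred_eq] at this
      push Not at this
      exact this) N0 h0
  set A := {i | ∀ N : AddSubgroup G, PO N → ∃ x ∈ N, e i x ≠ 0} with hAdef
  have : Finite A := hA
  have hrep : ∀ q : A → ℚ, ∃ x ∈ Ns, (∃ y ∈ Ns, ∀ i : A, e i.1 y = q i) → ∀ i : A, e i.1 x = q i := by
    intro q
    by_cases hq : ∃ y ∈ Ns, ∀ i : A, e i.1 y = q i
    · obtain ⟨y, hy, hy'⟩ := hq
      exact ⟨y, hy, fun _ => hy'⟩
    · exact ⟨0, Ns.zero_mem, fun h => absurd h hq⟩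
  choose r hr hr' using hrep
  have hcount : Countable ((A → ℚ) × ℕ) := by infer_instance
  obtain ⟨x, hx, hx'⟩ := baire_cc (κ := (A → ℚ) × ℕ) hG
    (fun c => {x : G | (c.2 + 1) • (x - r c.1) = 0}) (by
      rintro ⟨q, m⟩ s N hN
      have hexg : ∃ g ∈ N, (m + 1) • (s + g - r q) ≠ 0 := by
        by_cases hz : (m + 1) • (s - r q) = 0
        · obtain ⟨g, hg, hg'⟩ := hub N hN m
          refine ⟨g, hg, ?_⟩
          have : s + g - r q = (s - r q) + g := by abel
          rw [this, smul_add, hz, zero_add]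
          exact hg'
        · exact ⟨0, N.zero_mem, by simpa using hz⟩
      obtain ⟨g, hg, hg'⟩ := hexg
      obtain ⟨N', hN', hle', hnot⟩ := exists_PO_notMem hg' N hN
      refine ⟨g, hg, N', hN', hle', fun n hn hmem => hnot ?_⟩
      simp only [mem_ofPred_eq] at hmem
      have h1 : (m + 1) • (s + g - r q) = -((m + 1) • n) := by
        have h2 : s + g + n - r q = (s + g - r q) + n := by abel
        rw [h2, smul_add] at hmem
        exact eq_neg_of_add_eq_zero_left hmem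
      rw [h1]
      exact N'.neg_mem (N'.nsmul_mem hn _)) Ns hNs
  have hxq := hr' (fun i : A => e i.1 x) ⟨x, hx, fun _ => rfl⟩
  obtain ⟨m, hm⟩ := htors (x - r (fun i : A => e i.1 x)) (by
    intro i
    by_cases hi : i ∈ A
    · rw [map_sub, hxq ⟨i, hi⟩, sub_self]
    · exact hNse ⟨i, hi⟩ _ (Ns.sub_mem hx (hr _)))
  exact hx' (fun i : A => e i.1 x, m) hm

/-- every sequence has a subsequence with convergent `m`-multiples -/
def Conv (G : Type*) [AddCommGroup G] [TopologicalSpace G] (m : ℕ) : Prop :=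
  ∀ h : ℕ → G, ∃ ι : ℕ → ℕ, StrictMono ι ∧ ∃ z : G,
      Tendsto (fun k => m • h (ι k)) atTop (𝓝 z)

theorem exists_smul_ne (hG : CC G) (m : ℕ) (h : ℕ → G)
    (hn : ∀ ι : ℕ → ℕ, StrictMono ι → ∀ z : G, ¬ Tendsto (fun k => m • h (ι k)) atTop (𝓝 z))
    (K : AddSubgroup G) (hK : IsClosed (K : Set G)) (hhK : ∀ n, h n ∈ K)
    (N : AddSubgroup G) (hN : PO N) : ∃ g ∈ N ⊓ K, m • g ≠ 0 := by
  by_contra hcon
  push Not at hcon
  obtain ⟨W, hW, hWN⟩ := hN
  obtain ⟨a, ha⟩ := hG h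
  have haK : a ∈ K := ha.mem_closed hK 0 (fun n _ => hhK n)
  obtain ⟨φ, hφ, hφa⟩ := ha.subseq W hW.mem
  refine hn φ hφ (m • a) ?_
  have h1 : Tendsto (fun k => m • (h (φ k) - a)) atTop (𝓝 (0 : G)) := by
    intro V hV
    obtain ⟨j, hj⟩ := small_of_killK hG hK hW (nsmulAddMonoidHom m)
      (continuous_nsmul m) (fun x hxK hx => hcon x ⟨(hWN x).2 hx, hxK⟩) hV
    rw [mem_map, mem_atTop_sets]
    refine ⟨j, fun k hk => ?_⟩
    exact hj _ (hW.anti hk (hφa k)) (K.sub_mem (hhK _) haK)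
  have h2 := h1.add_const (m • a)
  rw [zero_add] at h2
  refine h2.congr fun k => ?_
  rw [← smul_add, sub_add_cancel]

/-- a countable subgroup containing a countable family -/
theorem exists_countable_subgroup {κ : Type*} [Countable κ] (h : κ → G) :
    ∃ (d : ℕ → G) (K : AddSubgroup G), (K : Set G) = closure (range d) ∧ ∀ n, h n ∈ K := by
  classical
  let f : (κ →₀ ℤ) →+ G := (Finsupp.linearCombination ℤ h).toAddMonoidHom
  have hf : ∀ n, f (Finsupp.single n 1) = h n := fun n => by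
    show Finsupp.linearCombination ℤ h (Finsupp.single n 1) = h n
    rw [Finsupp.linearCombination_single, one_smul]
  obtain ⟨d, hd⟩ := exists_surjective_nat (κ →₀ ℤ)
  refine ⟨fun n => f (d n), f.range.topologicalClosure, ?_, fun n => ?_⟩
  · rw [AddSubgroup.topologicalClosure_coe]
    congr 1
    ext x
    constructor
    · rintro ⟨y, rfl⟩
      obtain ⟨n, rfl⟩ := hd y
      exact ⟨n, rfl⟩
    · rintro ⟨n, rfl⟩
      exact ⟨d n, rfl⟩
  · exact f.range.le_topologicalClosure ⟨Finsupp.single n 1, hf n⟩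

theorem not_conv {m : ℕ} (h : ¬ Conv G m) : ∃ h : ℕ → G, ∀ ι : ℕ → ℕ, StrictMono ι →
    ∀ z : G, ¬ Tendsto (fun k => m • h (ι k)) atTop (𝓝 z) := by
  unfold Conv at h
  push Not at h
  exact h

/-- Case Ia. -/
theorem case_Ia [T2Space G] (hG : CC G) (hn : ∀ m : ℕ, ¬ Conv G (m + 1)) :
    ∃ H : AddSubgroup G, H ≠ ⊤ ∧ GD H ∧ SPC H := by
  classical
  choose h hh using fun m : ℕ => not_conv (hn m)
  obtain ⟨d, K, hK, hhK⟩ := exists_countable_subgroup (fun p : ℕ × ℕ => h p.1 p.2)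
  have hKc : IsClosed (K : Set G) := by rw [hK]; exact isClosed_closure
  have h1 : ∀ m, ∀ N : AddSubgroup G, PO N → ∃ g ∈ N ⊓ K, (m + 1) • g ≠ 0 := fun m N hN =>
    exists_smul_ne hG (m + 1) (h m) (hh m) K hKc (fun n => hhK (m, n)) N hN
  let f : G →ₗ[ℤ] TensorProduct ℤ ℚ G := TensorProduct.mk ℤ ℚ G 1
  have : IsLocalizedModule (nonZeroDivisors ℤ) f :=
    (isLocalizedModule_iff_isBaseChange (nonZeroDivisors ℤ) ℚ f).2 (TensorProduct.isBaseChange ℤ G ℚ)
  have hf : ∀ v : G, f v = 0 → ∃ m : ℕ, (m + 1) • v = 0 := by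
    intro v h0
    rw [IsLocalizedModule.eq_zero_iff (nonZeroDivisors ℤ) f] at h0
    obtain ⟨c, hc⟩ := h0
    have hc0 : (c : ℤ) ≠ 0 := nonZeroDivisors.coe_ne_zero c
    refine ⟨(c : ℤ).natAbs - 1, ?_⟩
    have h3 : (c : ℤ).natAbs - 1 + 1 = (c : ℤ).natAbs := by
      have := Int.natAbs_pos.2 hc0
      omega
    rw [h3]
    have hc' : (c : ℤ) • v = 0 := hc
    rcases Int.natAbs_eq (c : ℤ) with h | h
    · rw [h] at hc'
      simpa using hc'
    · rw [h] at hc'
      simpa using hc'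
  have hR : RProp f.toAddMonoidHom K := by
    intro N hN
    obtain ⟨g, hg, hg'⟩ := baireK hG hKc (fun m : ℕ => {g : G | (m + 1) • g = 0}) (by
      intro m s hs M hM
      have hexg : ∃ g ∈ M ⊓ K, (m + 1) • (s + g) ≠ 0 := by
        by_cases hz : (m + 1) • s = 0
        · obtain ⟨g, hg, hg'⟩ := h1 m M hM
          refine ⟨g, hg, ?_⟩
          rw [smul_add, hz, zero_add]
          exact hg'
        · exact ⟨0, (M ⊓ K).zero_mem, by simpa using hz⟩
      obtain ⟨g, hg, hg'⟩ := hexg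
      obtain ⟨N', hN', hle', hnot⟩ := exists_PO_notMem hg' M hM
      refine ⟨g, hg, N', hN', hle', fun n hn hmem => hnot ?_⟩
      have hmem' : (m + 1) • (s + g + n) = 0 := hmem
      rw [smul_add] at hmem'
      rw [eq_neg_of_add_eq_zero_left hmem']
      exact N'.neg_mem (N'.nsmul_mem hn.1 _)) N hN
    have h2 : ∀ m : ℕ, ∃ N' : AddSubgroup G, PO N' ∧ N' ≤ N ∧ (m + 1) • g ∉ N' := fun m =>
      exists_PO_notMem (hg' m) N hN
    choose M hM hMN hMg using h2
    obtain ⟨N', hN', hle, hle'⟩ := exists_PO_le_of_countable M hM N hN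
    refine ⟨g, hg, N', hN', hle, fun n hn h0 => ?_⟩
    obtain ⟨m, hm⟩ := hf (g + n) h0
    rw [smul_add] at hm
    apply hMg m
    rw [eq_neg_of_add_eq_zero_left hm]
    exact (M m).neg_mem (hle' m (N'.nsmul_mem hn.1 _))
  obtain ⟨χ, h2, h3, h4⟩ := caseR (F := ℚ) hG f.toAddMonoidHom d K hK hR
  exact ⟨χ.ker, h2, h3, h4⟩

/-- Case Ib. -/
theorem case_Ib [T2Space G] (hG : CC G)
    (hub : ∀ N : AddSubgroup G, PO N → ∀ m : ℕ, ∃ g ∈ N, (m + 1) • g ≠ 0) (m : ℕ)
    (hconv : Conv G (m + 1)) : ∃ H : AddSubgroup G, H ≠ ⊤ ∧ GD H ∧ SPC H := by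
  classical
  obtain ⟨W0, hW0, -⟩ := exists_PO (G := G) (fun _ => univ) (fun _ => univ_mem)
  obtain ⟨ι, e, hfin, htors⟩ := coordsQ G
  have hinf := infinite_coord_cc hG e hfin htors hub ⟨W0, hW0⟩
  let j : ℕ ↪ {i | ∀ N : AddSubgroup G, PO N → ∃ x ∈ N, e i x ≠ 0} := hinf.natEmbedding
  have hj : ∀ k, ∀ N : AddSubgroup G, PO N → ∃ x ∈ N, e (j k).1 x ≠ 0 := fun k => (j k).2
  have hjfin : ∀ g, (Function.support fun k => e (j k).1 g).Finite := by
    intro g
    have h1 : Function.Injective (fun k => (j k).1) := fun a b hab => j.injective (Subtype.ext hab)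
    exact ((hfin g).preimage h1.injOn).subset (fun k hk => hk)
  let E : G →+ (ℕ →₀ ℚ) :=
    { toFun := fun g => Finsupp.ofSupportFinite (fun k => e (j k).1 g) (hjfin g)
      map_zero' := by
        ext k
        exact map_zero (e (j k).1)
      map_add' := fun x y => by
        ext k
        exact map_add (e (j k).1) x y }
  have hE : ∀ g k, E g k = e (j k).1 g := fun g k => rfl
  let L : Set (ℕ →₀ ℚ) := {q | ∀ N : AddSubgroup G, PO N → ∃ x ∈ N, E x = q}
  obtain ⟨Ns, hNs, hNsL⟩ : ∃ N : AddSubgroup G, PO N ∧ ∀ x ∈ N, E x ∈ L := by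
    have h1 : ∀ q : {q : ℕ →₀ ℚ // q ∉ L}, ∃ N : AddSubgroup G, PO N ∧ ∀ x ∈ N, E x ≠ q.1 := by
      rintro ⟨q, hq⟩
      simp only [L, mem_ofPred_eq] at hq
      push Not at hq
      exact hq
    choose K hK hK' using h1
    obtain ⟨N, hN, -, hNK⟩ := exists_PO_le_of_countable K hK W0 hW0
    refine ⟨N, hN, fun x hx => ?_⟩
    by_contra hxL
    exact hK' ⟨E x, hxL⟩ x (hNK ⟨E x, hxL⟩ hx) rfl
  have hL : ∀ k, ∃ l ∈ L, l k ≠ 0 := by
    intro k
    obtain ⟨x, hx, hx'⟩ := hj k Ns hNs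
    exact ⟨E x, hNsL x hx, hx'⟩
  obtain ⟨u, hu, -⟩ := func_one L hL 0
  let χ : G →+ ℚ := u.toAddMonoidHom.comp E
  have hχ : ∀ g, χ g = u (E g) := fun g => rfl
  have hGD : ∀ N : AddSubgroup G, PO N → ∀ g : G, ∃ n ∈ N, χ n = χ g := by
    intro N hN g
    obtain ⟨l, hl, hl'⟩ := hu ((χ g).den - 1)
    obtain ⟨x, hx, hx'⟩ := hl N hN
    refine ⟨(χ g).num • x, N.zsmul_mem hx _, ?_⟩
    rw [map_zsmul, hχ x, hx', hl']
    have h3 : (((χ g).den - 1 : ℕ) : ℚ) + 1 = ((χ g).den : ℚ) := by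
      have := (χ g).pos
      have h4 : (χ g).den - 1 + 1 = (χ g).den := by omega
      exact_mod_cast h4
    rw [h3, zsmul_eq_mul, mul_one_div, Rat.num_div_den]
  refine ⟨χ.ker, ?_, spc_of_conv hG χ hGD W0 hW0 (m + 1) ?_ hconv⟩
  · intro htop
    obtain ⟨l, hl, hl'⟩ := hu 0
    obtain ⟨x, -, hx'⟩ := hl W0 hW0
    have h1 : x ∈ χ.ker := by rw [htop]; trivial
    rw [AddMonoidHom.mem_ker, hχ, hx', hl'] at h1
    norm_num at h1
  · intro w _ hw
    have h1 : (m + 1) • χ w = 0 := by rw [← map_nsmul, hw, map_zero]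
    rw [nsmul_eq_mul] at h1
    rcases mul_eq_zero.1 h1 with h2 | h2
    · exact absurd h2 (by positivity)
    · exact h2

section bounded

variable {p e : ℕ} {N1 : AddSubgroup G}

/-- Case IIa. -/
theorem case_IIa [T2Space G] (hG : CC G) (hp : p.Prime) (hN1 : PO N1)
    (h1 : ∀ g : G, (p * e) • g ∈ N1 → (p * e) • g = 0)
    (hn : ¬ Conv G e) : ∃ H : AddSubgroup G, H ≠ ⊤ ∧ GD H ∧ SPC H := by
  classical
  have := Fact.mk hp
  obtain ⟨h, hh⟩ := not_conv hn
  obtain ⟨d, K, hK, hhK⟩ := exists_countable_subgroup h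
  have hKc : IsClosed (K : Set G) := by rw [hK]; exact isClosed_closure
  let pG : AddSubgroup G := (nsmulAddMonoidHom (α := G) p).range
  have hpq : ∀ x : G ⧸ pG, p • x = 0 := by
    intro x
    induction x using QuotientAddGroup.induction_on with
    | H g =>
      rw [← QuotientAddGroup.mk_nsmul, QuotientAddGroup.eq_zero_iff]
      exact ⟨g, rfl⟩
  let _ : Module (ZMod p) (G ⧸ pG) := AddCommGroup.zmodModule hpq
  have hR : RProp (QuotientAddGroup.mk' pG) K := by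
    intro N hN
    obtain ⟨N2, hN2, hle, hle1⟩ := exists_PO_le_two N N1 hN hN1
    obtain ⟨g, hg, hg'⟩ := exists_smul_ne hG e h hh K hKc hhK N2 hN2
    obtain ⟨N', hN', hle', hnot⟩ := exists_PO_notMem hg' N2 hN2
    refine ⟨g, ⟨hle hg.1, hg.2⟩, N', hN', hle'.trans hle, fun n hn h0 => hnot ?_⟩
    rw [QuotientAddGroup.mk'_apply, QuotientAddGroup.eq_zero_iff] at h0
    obtain ⟨y, hy⟩ := h0
    have hy' : p • y = g + n := hy
    have h2 : (p * e) • y = e • (g + n) := by rw [← hy', smul_smul, mul_comm]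
    have h3 : (p * e) • y = 0 := by
      apply h1
      rw [h2]
      exact N1.nsmul_mem (N1.add_mem (hle1 hg.1) (hle1 (hle' hn.1))) e
    rw [h3, smul_add] at h2
    rw [eq_neg_of_add_eq_zero_left h2.symm]
    exact N'.neg_mem (N'.nsmul_mem hn.1 _)
  obtain ⟨χ, h2, h3, h4⟩ := caseR (F := ZMod p) hG (QuotientAddGroup.mk' pG) d K hK hR
  exact ⟨χ.ker, h2, h3, h4⟩

/-- Case IIb. -/
theorem case_IIb [T2Space G] (hG : CC G) (hp : p.Prime) (hN1 : PO N1)
    (h1 : ∀ g : G, (p * e) • g ∈ N1 → (p * e) • g = 0)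
    (hne : ∀ N : AddSubgroup G, PO N → ∃ x ∈ N, e • x ≠ 0)
    (hconv : Conv G e) : ∃ H : AddSubgroup G, H ≠ ⊤ ∧ GD H ∧ SPC H := by
  classical
  have := Fact.mk hp
  let Q : AddSubgroup G := (nsmulAddMonoidHom (α := G) p).range ⊔
    (N1 ⊓ (nsmulAddMonoidHom (α := G) e).ker)
  obtain ⟨ι, e', hfin', hsep'⟩ := coordsZ p hp (G ⧸ Q) (by
    intro x
    induction x using QuotientAddGroup.induction_on with
    | H g =>
      rw [← QuotientAddGroup.mk_nsmul, QuotientAddGroup.eq_zero_iff]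
      exact (le_sup_left : _ ≤ Q) ⟨g, rfl⟩)
  let c : ι → G →+ ZMod p := fun i => (e' i).comp (QuotientAddGroup.mk' Q)
  have hfin : ∀ g, {i | c i g ≠ 0}.Finite := fun g => hfin' _
  have hex : ∃ i, ∀ N : AddSubgroup G, PO N → ∃ x ∈ N, c i x ≠ 0 := by
    by_contra hcon
    push Not at hcon
    obtain ⟨N, hPN, hle, hN'⟩ := lemmaS_cc hG c hfin hcon N1 hN1
    obtain ⟨x, hx, hx'⟩ := hne N hPN
    have h2 : QuotientAddGroup.mk' Q x = 0 := hsep' _ (fun i => hN' i x hx)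
    rw [QuotientAddGroup.mk'_apply, QuotientAddGroup.eq_zero_iff] at h2
    obtain ⟨a, ⟨g, hg⟩, w, hw, hgw⟩ := AddSubgroup.mem_sup.1 h2
    apply hx'
    have hg' : p • g = a := hg
    have hew : e • w = 0 := hw.2
    have h3 : e • x = (p * e) • g := by
      rw [← hgw, smul_add, hew, add_zero, ← hg', smul_smul, mul_comm]
    rw [h3]
    apply h1
    rw [← h3]
    exact N1.nsmul_mem (hle hx) e
  obtain ⟨i, hi⟩ := hex
  have hGD : ∀ N : AddSubgroup G, PO N → ∀ g : G, ∃ n ∈ N, c i n = c i g := by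
    intro N hPN g
    obtain ⟨x, hx, hx'⟩ := hi N hPN
    refine ⟨(c i g * (c i x)⁻¹).val • x, N.nsmul_mem hx _, ?_⟩
    rw [map_nsmul, nsmul_eq_mul, ZMod.natCast_zmod_val, mul_assoc, inv_mul_cancel₀ hx', mul_one]
  refine ⟨(c i).ker, ?_, spc_of_conv hG (c i) hGD N1 hN1 e ?_ hconv⟩
  · intro htop
    obtain ⟨x, hx, hx'⟩ := hi N1 hN1
    apply hx'
    have : x ∈ (c i).ker := by rw [htop]; trivial
    exact this
  · intro w hw hew
    show e' i (QuotientAddGroup.mk' Q w) = 0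
    have h2 : QuotientAddGroup.mk' Q w = 0 := by
      rw [QuotientAddGroup.mk'_apply, QuotientAddGroup.eq_zero_iff]
      exact (le_sup_right : _ ≤ Q) ⟨hw, hew⟩
    rw [h2, map_zero]

end bounded

/-- **Main theorem.** A non-metrizable countably compact Abelian group has a proper dense
selectively pseudocompact subgroup. -/
theorem main [T2Space G] (hG : CC G) (hm : ¬ MetrizableSpace G) :
    ∃ H : AddSubgroup G, H ≠ ⊤ ∧ Dense (H : Set G) ∧ SPC H := by
  classical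
  have key : ∃ H : AddSubgroup G, H ≠ ⊤ ∧ GD H ∧ SPC H := by
    by_cases hb : ∃ m : ℕ, ∃ N : AddSubgroup G, PO N ∧ ∀ x ∈ N, (m + 1) • x = 0
    · have hex : ∃ m : ℕ, 0 < m ∧ ∃ N : AddSubgroup G, PO N ∧ ∀ x ∈ N, m • x = 0 := by
        obtain ⟨m, N, hN, h⟩ := hb
        exact ⟨m + 1, Nat.succ_pos m, N, hN, h⟩
      obtain ⟨hmpos, N0, hN0, hmin⟩ := Nat.find_spec hex
      set m := Nat.find hex with hmdef
      have hm1 : m ≠ 1 := by
        intro h1
        obtain ⟨x, hx, hx0⟩ := exists_ne_zero hG hm N0 hN0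
        apply hx0
        have := hmin x hx
        rwa [h1, one_smul] at this
      obtain ⟨p, hp, e, he⟩ := (Nat.exists_prime_and_dvd hm1)
      have he0 : 0 < e := by
        rcases Nat.eq_zero_or_pos e with h0 | h0
        · rw [h0, mul_zero] at he; omega
        · exact h0
      have hem : e < m := by
        rw [he]
        calc e = 1 * e := (one_mul e).symm
          _ < p * e := Nat.mul_lt_mul_of_pos_right hp.one_lt he0
      have hne : ∀ N : AddSubgroup G, PO N → ∃ x ∈ N, e • x ≠ 0 := by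
        intro N hN
        by_contra hcon
        push Not at hcon
        exact Nat.find_min hex hem ⟨he0, N, hN, hcon⟩
      obtain ⟨N1, hN1, hN1'⟩ := exists_PO_inf hG m N0 hN0 hmin
      rw [he] at hN1'
      by_cases hc : Conv G e
      · exact case_IIb hG hp hN1 hN1' hne hc
      · exact case_IIa hG hp hN1 hN1' hc
    · push Not at hb
      by_cases hc : ∃ m : ℕ, Conv G (m + 1)
      · obtain ⟨m, hc⟩ := hc
        exact case_Ib hG (fun N hN m => hb m N hN) m hc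
      · push Not at hc
        exact case_Ia hG hc
  obtain ⟨H, h1, h2, h3⟩ := key
  exact ⟨H, h1, h2.dense, h3⟩

end CCG
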