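import Mathlib

/-!
# Transfinite recursion of length continuum and linear functionals
-/

open Set Cardinal

namespace CCG

universe u v w

/-- well-founded recursion for an existence statement -/
theorem exists_rec {T : Type v} {r : T → T → Prop} (wf : WellFounded r) {X : Type w}
    (P : (t : T) → ((s : T) → r s t → X) → X → Prop) (h : ∀ t f, ∃ x, P t f x) :
    ∃ f : T → X, ∀ t, P t (fun s _ => f s) (f t) := by
  choose g hg using h
  refine ⟨wf.fix (C := fun _ => X) g, fun t => ?_⟩
  have h1 := hg t (fun s _ => wf.fix (C := fun _ => X) g s)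
  rw [← wf.fix_eq (C := fun _ => X) g t] at h1
  exact h1

/-- linear independence from independence over the earlier members -/
theorem li_of_rec {T : Type v} (r : T → T → Prop) [IsWellOrder T r] {F : Type w} [Field F]
    {V : Type u} [AddCommGroup V] [Module F V] (x : T → ℕ → V)
    (h : ∀ t, LinearIndependent F (fun k => (Submodule.span F
      {y | ∃ s, r s t ∧ ∃ k, y = x s k}).mkQ (x t k))) :
    LinearIndependent F (fun p : T × ℕ => x p.1 p.2) := by
  classical
  rw [linearIndependent_iff']
  intro S g hg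
  by_contra hcon
  push Not at hcon
  obtain ⟨p0, hp0, hp0'⟩ := hcon
  let A : Set T := {t | ∃ k, (t, k) ∈ S ∧ g (t, k) ≠ 0}
  have hAfin : A.Finite := by
    refine (S.finite_toSet.image Prod.fst).subset ?_
    rintro t ⟨k, hk, -⟩
    exact ⟨(t, k), hk, rfl⟩
  -- the maximal member
  obtain ⟨t, htA, htmax⟩ : ∃ t ∈ A, ∀ s ∈ A, s ≠ t → r s t := by
    have hwf : WellFounded (Function.swap r) ∨ True := Or.inr trivial
    let _ : LinearOrder T := linearOrderOfSTO r
    obtain ⟨t, ht, htm⟩ := hAfin.exists_maximal ⟨p0.1, p0.2, hp0, hp0'⟩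
    refine ⟨t, ht, fun s hs hst => ?_⟩
    rcases lt_trichotomy s t with h1 | h1 | h1
    · exact h1
    · exact absurd h1 hst
    · exact absurd (htm hs h1.le) (not_le.2 h1)
  obtain ⟨k0, hk0, hk0'⟩ := htA
  set L := Submodule.span F {y | ∃ s, r s t ∧ ∃ k, y = x s k} with hL
  -- split the sum
  have h1 : ∑ i ∈ S with i.1 = t, g i • x i.1 i.2 ∈ L := by
    have h2 := Finset.sum_filter_add_sum_filter_not S (fun i => i.1 = t) (fun i => g i • x i.1 i.2)
    rw [hg] at h2
    rw [eq_neg_of_add_eq_zero_left h2]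
    refine L.neg_mem (L.sum_mem fun i hi => ?_)
    rw [Finset.mem_filter] at hi
    by_cases hgi : g i = 0
    · rw [hgi, zero_smul]; exact L.zero_mem
    · exact L.smul_mem _ (Submodule.subset_span ⟨i.1, htmax i.1 ⟨i.2, hi.1, hgi⟩ hi.2, i.2, rfl⟩)
  have h3 := (linearIndependent_iff'.1 (h t)) ((S.filter (fun i => i.1 = t)).image Prod.snd)
    (fun k => g (t, k)) (by
      rw [Finset.sum_image]
      · have h4 : L.mkQ (∑ i ∈ S with i.1 = t, g i • x i.1 i.2) = 0 := by
          rw [Submodule.mkQ_apply, Submodule.Quotient.mk_eq_zero]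
          exact h1
        rw [map_sum] at h4
        rw [← h4]
        refine Finset.sum_congr rfl fun i hi => ?_
        rw [Finset.mem_filter] at hi
        obtain ⟨a, b⟩ := i
        obtain ⟨hi1, rfl⟩ := hi
        rw [map_smul]
      · intro a ha b hb hab
        simp only [Finset.coe_filter, mem_ofPred_eq] at ha hb
        exact Prod.ext (ha.2.trans hb.2.symm) hab)
  apply hk0'
  refine h3 k0 ?_
  rw [Finset.mem_image]
  exact ⟨(t, k0), Finset.mem_filter.2 ⟨hk0, rfl⟩, rfl⟩

/-- a linearly independent family admits a functional with prescribed values -/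
theorem exists_values {F : Type w} [Field F] {V : Type u} [AddCommGroup V] [Module F V]
    {ι : Type v} {x : ι → V} (hx : LinearIndependent F x) (b : ι → F) :
    ∃ ψ : V →ₗ[F] F, ∀ i, ψ (x i) = b i := by
  classical
  let f : Submodule.span F (Set.range x) →ₗ[F] F := (Finsupp.linearCombination F b).comp hx.repr
  obtain ⟨ψ, hψ⟩ := LinearMap.exists_extend f
  refine ⟨ψ, fun j => ?_⟩
  have hmem : x j ∈ Submodule.span F (Set.range x) := Submodule.subset_span ⟨j, rfl⟩
  have h3 : ψ (x j) = f ⟨x j, hmem⟩ := by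
    rw [← hψ]; rfl
  rw [h3]
  show (Finsupp.linearCombination F b) (hx.repr ⟨x j, hmem⟩) = b j
  rw [hx.repr_eq_single j ⟨x j, hmem⟩ rfl]
  simp

/-- independence of a tail after subtracting a vector -/
theorem exists_tail_li {F : Type w} [Field F] {V : Type u} [AddCommGroup V] [Module F V]
    {x : ℕ → V} (hx : LinearIndependent F x) (a : V) :
    ∃ n0 : ℕ, LinearIndependent F (fun k => x (n0 + k) - a) := by
  classical
  have key : ∀ (n0 : ℕ) (l : ℕ →₀ F), Finsupp.linearCombination F (fun k => x (n0 + k) - a) l =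
      Finsupp.linearCombination F x (l.mapDomain (fun k => n0 + k)) -
        (Finsupp.linearCombination F (fun _ => (1 : F)) l) • a := by
    intro n0 l
    rw [Finsupp.linearCombination_mapDomain]
    simp only [Finsupp.linearCombination_apply, Finsupp.sum, Function.comp, smul_sub,
      Finset.sum_sub_distrib, smul_eq_mul, mul_one, Finset.sum_smul]
  by_cases h : ∃ c : ℕ →₀ F, Finsupp.linearCombination F x c = a
  · obtain ⟨c, hc⟩ := h
    obtain ⟨M, hM⟩ := c.support.bddAbove
    refine ⟨M + 1, ?_⟩
    rw [linearIndependent_iff]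
    intro l hl
    rw [key, ← hc, ← map_smul, ← map_sub] at hl
    have h1 := (linearIndependent_iff.1 hx) _ hl
    ext k
    have h2 := DFunLike.congr_fun h1 (M + 1 + k)
    rw [Finsupp.sub_apply, Finsupp.smul_apply] at h2
    have h3 : c (M + 1 + k) = 0 := by
      by_contra h'
      have := hM (Finsupp.mem_support_iff.2 h')
      omega
    have h4 : (l.mapDomain (fun k => M + 1 + k)) (M + 1 + k) = l k :=
      Finsupp.mapDomain_apply (fun a b hab => by simpa using hab) l k
    rw [h3, h4, smul_zero, sub_zero] at h2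
    simpa using h2
  · refine ⟨0, ?_⟩
    rw [linearIndependent_iff]
    intro l hl
    rw [key] at hl
    have hs : Finsupp.linearCombination F (fun _ => (1 : F)) l = 0 := by
      by_contra hs
      apply h
      refine ⟨(Finsupp.linearCombination F (fun _ => (1 : F)) l)⁻¹ •
        (l.mapDomain (fun k => 0 + k)), ?_⟩
      rw [map_smul, sub_eq_zero.1 hl, smul_smul, inv_mul_cancel₀ hs, one_smul]
    rw [hs, zero_smul, sub_zero] at hl
    have h1 := (linearIndependent_iff.1 hx) _ hl
    ext k
    have h2 := DFunLike.congr_fun h1 (0 + k)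
    have h4 : (l.mapDomain (fun k => 0 + k)) (0 + k) = l k :=
      Finsupp.mapDomain_apply (fun a b hab => by simpa using hab) l k
    rw [h4] at h2
    simpa using h2

/-- the recursion of length continuum -/
theorem exists_functional_of_stage {F : Type} [Field F] {V : Type u} [AddCommGroup V] [Module F V]
    {T : Type} (hT : #T ≤ 𝔠) {X : Type w} (q : X → V) (b : T → ℕ → F) (A : T → (ℕ → X) → Prop)
    (stage : ∀ (t : T) (S : Type) (s : S → V), #S < 𝔠 → ∃ v : ℕ → X, A t v ∧
      LinearIndependent F (fun k => (Submodule.span F (range s)).mkQ (q (v k)))) :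
    ∃ ψ : V →ₗ[F] F, ∀ t, ∃ v : ℕ → X, A t v ∧ ∀ k, ψ (q (v k)) = b t k := by
  classical
  obtain ⟨r, hwo, hr⟩ := Cardinal.exists_ord_eq T
  obtain ⟨v, hv⟩ := exists_rec hwo.wf (X := ℕ → X)
    (fun t f x => A t x ∧ LinearIndependent F (fun k => (Submodule.span F
      (range (fun p : {s // r s t} × ℕ => q (f p.1.1 p.1.2 p.2)))).mkQ (q (x k)))) (by
    intro t f
    refine stage t ({s // r s t} × ℕ) _ ?_
    have h1 : #{s // r s t} < #T := by
      rw [← Ordinal.card_typein (r := r) t, ← Cardinal.lt_ord, hr]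
      exact Ordinal.typein_lt_type r t
    rw [Cardinal.mk_prod, Cardinal.lift_id, Cardinal.lift_id]
    refine Cardinal.mul_lt_of_lt Cardinal.aleph0_le_continuum (h1.trans_le hT) ?_
    rw [Cardinal.mk_nat]
    exact Cardinal.aleph0_lt_continuum)
  have hli : LinearIndependent F (fun p : T × ℕ => q (v p.1 p.2)) := by
    refine li_of_rec r (fun t k => q (v t k)) fun t => ?_
    have h1 : {y | ∃ s, r s t ∧ ∃ k, y = q (v s k)} =
        range (fun p : {s // r s t} × ℕ => q (v p.1.1 p.2)) := by
      ext y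
      constructor
      · rintro ⟨s, hs, k, rfl⟩
        exact ⟨(⟨s, hs⟩, k), rfl⟩
      · rintro ⟨⟨⟨s, hs⟩, k⟩, rfl⟩
        exact ⟨s, hs, k, rfl⟩
    rw [h1]
    exact (hv t).2
  obtain ⟨ψ, hψ⟩ := exists_values hli (fun p => b p.1 p.2)
  exact ⟨ψ, fun t => ⟨v t, (hv t).1, fun k => hψ (t, k)⟩⟩

end CCG
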