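import Pool.Agent.CCG.Crit
import Pool.Agent.CCG.Rec

/-!
# One stage of the recursion
-/

open Filter Topology Set SSPG Cardinal

set_option linter.unusedSectionVars false

namespace CCG

universe u v

variable {G : Type u} [AddCommGroup G] [TopologicalSpace G] [IsTopologicalAddGroup G]

/-- property (R) -/
def RProp {V : Type v} [AddCommGroup V] (q : G →+ V) (K : AddSubgroup G) : Prop :=
  ∀ N : AddSubgroup G, PO N → ∃ g ∈ N ⊓ K, ∃ N' : AddSubgroup G, PO N' ∧ N' ≤ N ∧
    ∀ n ∈ N' ⊓ K, q (g + n) ≠ 0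

theorem RProp.injection (hG : CC G) {V : Type v} [AddCommGroup V] {q : G →+ V} {K : AddSubgroup G}
    (hK : IsClosed (K : Set G)) (hR : RProp q K) (N : AddSubgroup G) (hN : PO N) :
    ∃ x : Set ℕ → G, (∀ A, x A ∈ N ⊓ K) ∧ Function.Injective (fun A => q (x A)) := by
  classical
  have hR' : ∀ M : {M : AddSubgroup G // PO M}, ∃ p : G × {M : AddSubgroup G // PO M},
      p.1 ∈ M.1 ⊓ K ∧ p.2.1 ≤ M.1 ∧ ∀ n ∈ p.2.1 ⊓ K, q (p.1 + n) ≠ 0 := by
    rintro ⟨M, hM⟩
    obtain ⟨g, hg, N', hN', hle, h⟩ := hR M hM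
    exact ⟨(g, ⟨N', hN'⟩), hg, hle, h⟩
  choose p hp1 hp2 hp3 using hR'
  let S : ℕ → {M : AddSubgroup G // PO M} := fun n => Nat.rec ⟨N, hN⟩ (fun _ M => (p M).2) n
  have hS : ∀ j, S (j + 1) = (p (S j)).2 := fun j => rfl
  have hSanti : Antitone (fun k => (S k).1) :=
    antitone_nat_of_succ_le fun k => by rw [hS]; exact hp2 (S k)
  let g : ℕ → G := fun j => (p (S j)).1
  have hg : ∀ j, g j ∈ (S j).1 ⊓ K := fun j => hp1 (S j)
  have hg' : ∀ j, ∀ n ∈ (S (j + 1)).1 ⊓ K, q (g j + n) ≠ 0 := by
    intro j n hn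
    rw [hS] at hn
    exact hp3 (S j) n hn
  let s : Set ℕ → ℕ → G := fun A k => ∑ i ∈ Finset.range k, (if i ∈ A then g i else 0)
  have hsK : ∀ A k, s A k ∈ K := by
    intro A k
    refine K.sum_mem fun i _ => ?_
    split_ifs
    · exact (hg i).2
    · exact K.zero_mem
  have hs1 : ∀ A k, s A (k + 1) - s A k = (if k ∈ A then g k else 0) := by
    intro A k
    simp only [s, Finset.sum_range_succ, add_sub_cancel_left]
  have hx : ∀ A : Set ℕ, ∃ x ∈ (K : Set G), ∀ k, x - s A k ∈ (S k).1 := by
    intro A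
    refine completeK hG hK (fun k => (S k).1) (fun k => (S k).2) hSanti (s A)
      (fun k => hsK A k) (fun k => ?_)
    rw [hs1]
    split_ifs
    · exact (hg k).1
    · exact (S k).1.zero_mem
  choose x hxK hx' using hx
  refine ⟨x, fun A => ⟨?_, hxK A⟩, ?_⟩
  · have h0 : x A - s A 0 ∈ N := hx' A 0
    have h1 : s A 0 = 0 := by simp [s]
    rwa [h1, sub_zero] at h0
  · -- the main point
    have key : ∀ A B : Set ℕ, ∀ i, (∀ j < i, (j ∈ A ↔ j ∈ B)) → i ∈ A → i ∉ B →
        q (x A) ≠ q (x B) := by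
      intro A B i hj hA hB heq
      have h1 : s A i = s B i := by
        simp only [s]
        refine Finset.sum_congr rfl fun j hj' => ?_
        simp only [hj j (Finset.mem_range.1 hj')]
      have h2 : s A (i + 1) = s A i + g i := by
        have := hs1 A i
        rw [if_pos hA] at this
        rw [← this]; abel
      have h3 : s B (i + 1) = s B i := by
        have := hs1 B i
        rw [if_neg hB] at this
        exact sub_eq_zero.1 this
      have h4 : x A - x B = g i + ((x A - s A (i + 1)) - (x B - s B (i + 1))) := by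
        rw [h2, h3, h1]; abel
      have h5 := hg' i ((x A - s A (i + 1)) - (x B - s B (i + 1)))
        ⟨(S (i + 1)).1.sub_mem (hx' A (i + 1)) (hx' B (i + 1)),
          K.sub_mem (K.sub_mem (hxK A) (hsK A (i + 1))) (K.sub_mem (hxK B) (hsK B (i + 1)))⟩
      rw [← h4, map_sub, heq, sub_self] at h5
      exact h5 rfl
    intro A B hAB
    by_contra hne
    have hex : ∃ i, ¬ (i ∈ A ↔ i ∈ B) := by
      by_contra h'
      push Not at h'
      exact hne (Set.ext h')
    have hmin : ∀ j < Nat.find hex, (j ∈ A ↔ j ∈ B) := fun j hj => not_not.1 (Nat.find_min hex hj)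
    have hi := Nat.find_spec hex
    by_cases hA : Nat.find hex ∈ A
    · have hB : Nat.find hex ∉ B := fun hB => hi ⟨fun _ => hB, fun _ => hA⟩
      exact key A B _ hmin hA hB hAB
    · have hB : Nat.find hex ∈ B := by
        by_contra hB
        exact hi ⟨fun h => absurd h hA, fun h => absurd h hB⟩
      exact key B A _ (fun j hj => (hmin j hj).symm) hB hA hAB.symm

theorem Acc.shift {x : ℕ → G} {a : G} (h : Acc x a) (n0 : ℕ) :
    Acc (fun k => x (n0 + k) - a) 0 := by
  intro V hV hfin
  refine h V hV (((hfin.image (fun k => n0 + k)).union (finite_Iio n0)).subset ?_)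
  intro n hn
  by_cases hn0 : n < n0
  · exact Or.inr hn0
  · left
    refine ⟨n - n0, ?_, ?_⟩
    · show x (n0 + (n - n0)) - a - 0 ∈ V
      have : n0 + (n - n0) = n := by omega
      rw [this, sub_zero]
      exact hn
    · show n0 + (n - n0) = n
      omega

theorem RProp.stage (hG : CC G) {F : Type} [Field F] [Countable F] {V : Type v} [AddCommGroup V]
    [Module F V] {q : G →+ V} {K : AddSubgroup G}
    (hK : IsClosed (K : Set G)) (hR : RProp q K) (N : AddSubgroup G) (hN : PO N)
    (S : Type) (s : S → V) (hS : #S < 𝔠) :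
    ∃ v : ℕ → G, ((∀ k, v k ∈ N ⊓ K) ∧ Acc v 0) ∧
      LinearIndependent F (fun k => (Submodule.span F (range s)).mkQ (q (v k))) := by
  classical
  set L := Submodule.span F (range s) with hL
  obtain ⟨x, hx, hxi⟩ := hR.injection hG hK N hN
  obtain ⟨b, hbE, hspan, hli⟩ := exists_linearIndependent F
    ((fun g => L.mkQ (q g)) '' ((N ⊓ K : AddSubgroup G) : Set G))
  have hb : ¬ b.Countable := by
    intro hbc
    obtain ⟨z, hz⟩ := Set.countable_iff_exists_subset_range.1 hbc
    have hz' : ∀ n, ∃ y : V, L.mkQ y = z n := fun n => L.mkQ_surjective (z n)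
    choose z' hz' using hz'
    let t : S ⊕ ℕ → V := Sum.elim s z'
    have hLt : L ≤ Submodule.span F (range t) := by
      refine Submodule.span_mono ?_
      rintro _ ⟨i, rfl⟩
      exact ⟨Sum.inl i, rfl⟩
    have hmem : ∀ A, q (x A) ∈ Submodule.span F (range t) := by
      intro A
      have h1 : L.mkQ (q (x A)) ∈ Submodule.span F (range z) := by
        refine Submodule.span_mono hz ?_
        rw [hspan]
        exact Submodule.subset_span ⟨x A, hx A, rfl⟩
      have h2 : range z = L.mkQ '' (range z') := by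
        ext y
        constructor
        · rintro ⟨n, rfl⟩
          exact ⟨z' n, ⟨n, rfl⟩, hz' n⟩
        · rintro ⟨_, ⟨n, rfl⟩, rfl⟩
          exact ⟨n, (hz' n).symm⟩
      rw [h2, Submodule.span_image, Submodule.mem_map] at h1
      obtain ⟨y, hy, hy'⟩ := h1
      have h3 : q (x A) - y ∈ L := by
        rw [← Submodule.Quotient.mk_eq_zero, Submodule.Quotient.mk_sub, sub_eq_zero]
        exact hy'.symm
      have h4 : y ∈ Submodule.span F (range t) := by
        refine Submodule.span_mono ?_ hy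
        rintro _ ⟨i, rfl⟩
        exact ⟨Sum.inr i, rfl⟩
      have h5 := Submodule.add_mem _ (hLt h3) h4
      simpa using h5
    have hc : ∀ A, ∃ c : (S ⊕ ℕ) →₀ F, Finsupp.linearCombination F t c = q (x A) := by
      intro A
      have := hmem A
      rwa [← Finsupp.range_linearCombination] at this
    choose c hc using hc
    have hci : Function.Injective c := by
      intro A B hAB
      apply hxi
      show q (x A) = q (x B)
      rw [← hc A, ← hc B, hAB]
    have h1 : #(Set ℕ) ≤ #((S ⊕ ℕ) →₀ F) := Cardinal.mk_le_of_injective hci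
    have h2 : #((S ⊕ ℕ) →₀ F) < 𝔠 := by
      rw [Cardinal.mk_finsupp_of_infinite, max_lt_iff]
      constructor
      · rw [Cardinal.mk_sum, Cardinal.lift_id, Cardinal.lift_id, Cardinal.mk_nat]
        exact Cardinal.add_lt_of_lt Cardinal.aleph0_le_continuum hS Cardinal.aleph0_lt_continuum
      · exact lt_of_le_of_lt (Cardinal.mk_le_aleph0) Cardinal.aleph0_lt_continuum
    rw [Cardinal.mk_set, Cardinal.mk_nat, Cardinal.two_power_aleph0] at h1
    exact absurd h2 (not_lt.2 h1)
  have hbinf : b.Infinite := fun h => hb h.countable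
  let j : ℕ ↪ b := hbinf.natEmbedding
  have hj : ∀ n, ∃ g ∈ ((N ⊓ K : AddSubgroup G) : Set G), L.mkQ (q g) = (j n).1 := fun n => by
    obtain ⟨g, hg, hg'⟩ := hbE (j n).2
    exact ⟨g, hg, hg'⟩
  choose y hy hy' using hj
  have hyli : LinearIndependent F (fun n => L.mkQ (q (y n))) := by
    have h1 := hli.comp j j.injective
    have h2 : (fun n => L.mkQ (q (y n))) = (Subtype.val : b → (V ⧸ L)) ∘ j := by
      funext n
      exact hy' n
    rw [h2]
    exact h1
  obtain ⟨a, ha⟩ := hG y
  have haK : a ∈ K := ha.mem_closed hK 0 (fun n _ => (hy n).2)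
  have haN : a ∈ N := by
    have := ha.sub_mem_PO (c := 0) hN 0 (fun n _ => by rw [sub_zero]; exact (hy n).1)
    simpa using this
  obtain ⟨n0, hn0⟩ := exists_tail_li hyli (L.mkQ (q a))
  refine ⟨fun k => y (n0 + k) - a, ⟨fun k => ?_, ha.shift n0⟩, ?_⟩
  · exact (N ⊓ K).sub_mem (hy _) ⟨haN, haK⟩
  · have h2 : (fun k => L.mkQ (q (y (n0 + k) - a))) =
        (fun k => L.mkQ (q (y (n0 + k))) - L.mkQ (q a)) := by
      funext k
      rw [map_sub, map_sub]
    rw [h2]
    exact hn0

end CCG
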